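import Mathlib
import Pool.Agent.R528.RM.GoldQ

set_option autoImplicit false

/-!
# The number of Goldbach representations in random models of the primes

The integers are decided one after the other; no independence is assumed.

* `result`, first part.  Let `ρ : ℕ → [0, 1]` be an arbitrary profile and suppose that almost surely
  the conditional probability of choosing `n + 1`, given the decisions up to `n`, is
  `(1 + o(1)) ρ(n + 1)`.  Then almost surely, for every `ε > 0` and ALL large `n`, the number `r(n)` of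
  ordered representations of `n` as a sum of two chosen integers satisfies
  `|r(n) - E(n)| ≤ 14 √(n log n) + ε E(n)`, where `E(n) = ∑_{j ≤ n} ρ(j) ρ(n - j)`.

* `result`, second part.  Fix a finite set `Q` of primes; multiples of the primes of `Q` are never
  chosen and the other integers `n + 1` are chosen with conditional probability
  `(1 + o(1)) ∏_{p ∈ Q} (1 - 1/p)⁻¹ / log n`.  Then almost surely, for all `n`,
  `r(n) = (𝔖_Q(n) + o(1)) n / (log n)²`, where `𝔖_Q(n)` is the product over `p ∈ Q` of the Hardy and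
  Littlewood factors `(1 - ν_p(n)/p) / (1 - 1/p)²`, with `ν_p(n) = 1` if `p ∣ n` and `2` otherwise.

In particular `r(n) >= δ n / (log n)²` with `δ > 0` holds in these models for all large `n` (all
large even `n` when `2 ∈ Q`), so on the multiples of every modulus, without exceptions.
-/

open MeasureTheory Filter
open scoped Topology

namespace Pool.Agent.Results.MP_92f640_nt.GoldbachSievedModels

/-- the conditional probability that `n + 1` is chosen, given the information up to `n` -/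
noncomputable def density {Ω : Type} {mΩ : MeasurableSpace Ω} (μ : Measure Ω) (ℱ : Filtration ℕ mΩ)
    (A : ℕ → Set Ω) (n : ℕ) : Ω → ℝ := μ[(A (n + 1)).indicator (fun _ => (1 : ℝ)) | ℱ n]

/-- the number of ordered pairs `(a, b)` of elements of `S` with `a + b = n` -/
noncomputable def reps (S : Set ℕ) (n : ℕ) : ℕ := {q : ℕ × ℕ | q.1 ∈ S ∧ q.2 ∈ S ∧ q.1 + q.2 = n}.ncard

/-- the Hardy and Littlewood factors of the primes of `Q` -/
noncomputable def singular (Q : Finset ℕ) (n : ℕ) : ℝ :=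
  ∏ p ∈ Q, (1 - (if p ∣ n then 1 else 2 : ℝ) / p) / (1 - 1 / (p : ℝ)) ^ 2

lemma reps_eq {Ω : Type} (A : ℕ → Set Ω) (n : ℕ) (ω : Ω) :
    (reps {a | ω ∈ A a} n : ℝ) = Pool.Agent.R528.RM.gold A n ω := by
  classical
  have h1 : ∀ j, Pool.Agent.R528.RM.In A j ω = if ω ∈ A j then 1 else 0 := by
    intro j
    unfold Pool.Agent.R528.RM.In
    by_cases h : ω ∈ A j
    · rw [if_pos h, Set.indicator_of_mem h]
    · rw [if_neg h, Set.indicator_of_notMem h]
  unfold Pool.Agent.R528.RM.gold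
  have h2 : ∀ j, Pool.Agent.R528.RM.In A j ω * Pool.Agent.R528.RM.In A (n - j) ω =
      if (ω ∈ A j ∧ ω ∈ A (n - j)) then 1 else 0 := by
    intro j
    rw [h1, h1]
    by_cases h : ω ∈ A j <;> by_cases h' : ω ∈ A (n - j) <;> simp [h, h']
  simp_rw [h2]
  rw [Finset.sum_boole]
  congr 1
  unfold reps
  rw [← Set.ncard_coe_finset]
  refine Set.ncard_congr (fun q _ => q.1) ?_ ?_ ?_
  · rintro ⟨a, b⟩ ⟨h3, h4, h5⟩
    simp only [Set.mem_ofPred_eq] at h3 h4 h5
    simp only [Finset.coe_filter, Finset.mem_range, Set.mem_ofPred_eq]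
    refine ⟨by omega, h3, ?_⟩
    rw [show n - a = b by omega]
    exact h4
  · rintro ⟨a, b⟩ ⟨a', b'⟩ ⟨_, _, h5⟩ ⟨_, _, h6⟩ h7
    simp only at h5 h6 h7
    rw [Prod.mk.injEq]
    omega
  · intro j hj
    simp only [Finset.coe_filter, Finset.mem_range, Set.mem_ofPred_eq] at hj
    exact ⟨(j, n - j), ⟨hj.2.1, hj.2.2, by show j + (n - j) = n; omega⟩, rfl⟩

end Pool.Agent.Results.MP_92f640_nt.GoldbachSievedModels

open Pool.Agent.Results.MP_92f640_nt.GoldbachSievedModels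

theorem Pool.Agent.Results.MP_92f640_nt.GoldbachSievedModels.result
    {Ω : Type} [mΩ : MeasurableSpace Ω] (μ : Measure Ω) [IsProbabilityMeasure μ]
    (ℱ : Filtration ℕ mΩ) (A : ℕ → Set Ω) (hA : ∀ n, MeasurableSet[ℱ n] (A n)) :
    (∀ ρ : ℕ → ℝ, (∀ n, 0 ≤ ρ n ∧ ρ n ≤ 1) →
      (∀ᵐ ω ∂μ, ∀ ε : ℝ, 0 < ε → ∀ᶠ n : ℕ in atTop, |density μ ℱ A n ω - ρ (n + 1)| ≤ ε * ρ (n + 1)) →
      ∀ᵐ ω ∂μ, ∀ ε : ℝ, 0 < ε → ∀ᶠ n : ℕ in atTop,
        |(reps {a | ω ∈ A a} n : ℝ) - ∑ j ∈ Finset.range (n + 1), ρ j * ρ (n - j)| ≤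
          14 * √(n * Real.log n) + ε * ∑ j ∈ Finset.range (n + 1), ρ j * ρ (n - j)) ∧
    (∀ Q : Finset ℕ, (∀ p ∈ Q, p.Prime) → (∀ n, (∃ p ∈ Q, p ∣ n) → A n = ∅) →
      (∀ᵐ ω ∂μ, Tendsto (fun n : ℕ => density μ ℱ A n ω * Real.log n)
        (atTop ⊓ 𝓟 {n : ℕ | ∀ p ∈ Q, ¬ p ∣ n + 1}) (𝓝 (∏ p ∈ Q, (1 - 1 / (p : ℝ))⁻¹))) →
      ∀ᵐ ω ∂μ, Tendsto (fun n : ℕ => (reps {a | ω ∈ A a} n : ℝ) * Real.log n ^ 2 / n - singular Q n)
        atTop (𝓝 0)) := by
  refine ⟨fun ρ hρ hd => ?_, fun Q hQ hcop hd => ?_⟩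
  · filter_upwards [Pool.Agent.R528.RM.gold_law hA ρ hρ hd] with ω hω ε hε
    filter_upwards [hω ε hε] with n hn
    rw [reps_eq]
    exact hn
  · filter_upwards [Pool.Agent.R528.RM.gold_sieved hA Q hQ hcop hd] with ω hω
    refine hω.congr fun n => ?_
    rw [reps_eq]
    rfl
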