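import Pool.Agent.R460.GR.Conv

/-!
# Goldbach lower bounds on the multiples of `q` for the moduli up to `x ^ (7 / 10 - ρ)`

There is a set `D` of at most `(log x) ^ c` integers, all of them larger than any given power of `log x`, such
that every modulus `q ≤ x ^ (7 / 10 - ρ)` which is not divisible by a member of `D` satisfies the assertion of
the problem with `δ = 1 / 20`; and in every residue class modulo such a `q`, in particular for the multiples of
`q`, all but at most `x / (q (log x)^A)` of the even integers `n ≤ x` have at least one twentieth of the number of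
representations which Hardy and Littlewood predict.

Definitions used (in `Pool.Agent.H560R3.GB`): `g n`: the number of ordered pairs of primes `(p₁, p₂)` with
`p₁ + p₂ = n`; `HL n`: the prediction `sing n * (n / (log n)²)` of Hardy and Littlewood, where
`sing n = 2 C₂ ∏_{p ∣ n, p > 2} (p - 1) / (p - 2)` and `C₂ = ∏_{p > 2} (1 - 1 / (p - 1) ^ 2)`.

Proof (`R460/GS`, `R460/GR`). Let `G` be `log N` times the indicator function of the integers without prime factors
up to `N ^ (3 / 10)`. Then `Λ(m) Λ(n) ≥ Λ(m) G(n) + G(m) Λ(n) - G(m) G(n)` up to prime powers, and the mean value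
`w` of `G` satisfies `2 w - w ^ 2 > 1 / 20`. The difference of `G` and a sieve model is a bilinear sum with
flexible lengths; so its sum over the characters modulo `q` which are not bad is small in mean square near the
fractions with small denominators, and over all characters elsewhere, if `q ≤ N ^ (7 / 10 - ρ)`. A bad character is
induced by a primitive character for which one of the linear factors of the bilinear sums is large; by the
large sieve for the tenth powers of the factors there are at most `(log N) ^ c` such primitive characters of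
conductors up to `N ^ (3 / 4)`, and their conductors are larger than any power of `log N`. These conductors (divided
by small factors) are the members of `D`.
-/

set_option autoImplicit false

namespace Pool.Agent.Results.MP_92f640_nt.ModuliUpToSevenTenths

open Finset
open Pool.Agent.H560R3.GB (g HL sing)
open Pool.Agent.W93.PG (cnt)

/-- The even integers `n ≡ a (mod q)` with `0 < n ≤ x` for which `g n < (1 / 20) HL n`. -/
def exceptional (x : ℝ) (q : ℕ) (a : ℤ) : Set ℕ :=
  {n : ℕ | 0 < n ∧ (n : ℝ) ≤ x ∧ 2 ∣ n ∧ (n : ℤ) ≡ a [ZMOD q] ∧ ¬ (1 / 20) * HL n ≤ g n}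

/-- The even multiples `n` of `q` with `x / 2 < n ≤ x` and `g n < δ n / (log n)²`, as in the problem. -/
def few (δ x : ℝ) (q : ℕ) : Set ℕ :=
  {n : ℕ | x / 2 < n ∧ (n : ℝ) ≤ x ∧ 2 ∣ n ∧ q ∣ n ∧ (g n : ℝ) < δ * (n / Real.log n ^ 2)}

theorem cnt_eq (n : ℕ) : cnt n 0 n = g n := by
  unfold cnt g
  refine card_bij (fun p _ => (p, n - p)) ?_ ?_ ?_
  · intro p hp
    rw [mem_filter, mem_Ioc] at hp
    rw [mem_filter, HasAntidiagonal.mem_antidiagonal]
    exact ⟨by simp only; omega, hp.2⟩
  · intro p _ p' _ h
    exact congrArg Prod.fst h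
  · rintro ⟨a, b⟩ h
    rw [mem_filter, HasAntidiagonal.mem_antidiagonal] at h
    obtain ⟨h1, h2, h3⟩ := h
    simp only at h1 h2 h3
    have ha := h2.pos
    refine ⟨a, ?_, ?_⟩
    · rw [mem_filter, mem_Ioc]
      refine ⟨⟨ha, by omega⟩, h2, ?_⟩
      have : n - a = b := by omega
      rw [this]
      exact h3
    · have : n - a = b := by omega
      simp [this]

/-- For all `ρ > 0` and `A` there is `c` such that for all `B` and all sufficiently large real `x` there is a finite
set `D` of at most `(log x) ^ c` integers, all of them larger than `(log x) ^ B`, with the following property. Let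
`1 ≤ q ≤ x ^ (7 / 10 - ρ)` be an integer which is not divisible by a member of `D`. Then (1) for every integer `a`
all but at most `x / (q (log x)^A)` of the even integers `0 < n ≤ x`, `n ≡ a (mod q)`, satisfy
`g n ≥ (1 / 20) HL n`; (2) all but at most `x / (8 q)` of the even multiples `n` of `q` in `(x / 2, x]` satisfy
`g n ≥ n / (20 (log n)²)`, which is the assertion of the problem for `q`, with `δ = 1 / 20`. -/
theorem result (ρ : ℝ) (hρ : 0 < ρ) (A : ℕ) :
    ∃ c : ℕ, ∀ B : ℕ, ∃ x₀ : ℝ, ∀ x : ℝ, x₀ ≤ x → ∃ D : Finset ℕ, (D.card : ℝ) ≤ Real.log x ^ c ∧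
      (∀ d ∈ D, Real.log x ^ B < (d : ℝ)) ∧
      ∀ q : ℕ, 1 ≤ q → (q : ℝ) ≤ x ^ (7 / 10 - ρ) → (∀ d ∈ D, ¬ d ∣ q) →
        (∀ a : ℤ, (exceptional x q a).Finite ∧ ((exceptional x q a).ncard : ℝ) ≤ x / (q * Real.log x ^ A)) ∧
        ((few (1 / 20) x q).Finite ∧ ((few (1 / 20) x q).ncard : ℝ) ≤ x / (8 * q)) := by
  obtain ⟨c, h⟩ := Pool.Agent.R460.GR.class_few_reg (fun n => (1 / 20) * HL n ≤ g n) 0
    ⟨1, fun n hn _ hw => by
      have h1 := hw 0 n (by omega) le_rfl (by simp)
      rw [cnt_eq] at h1
      refine le_trans (le_of_eq ?_) h1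
      unfold Pool.Agent.H560R3.GB.HL
      push_cast
      ring⟩ ρ hρ (A + 1)
  refine ⟨c, fun B => ?_⟩
  obtain ⟨x₀, h0⟩ := h B
  refine ⟨max x₀ (Real.exp 8), fun x hx => ?_⟩
  obtain ⟨D, hD1, hD2, hD3⟩ := h0 x ((le_max_left _ _).trans hx)
  have hx8 : Real.exp 8 ≤ x := (le_max_right _ _).trans hx
  have hx0 : 0 < x := lt_of_lt_of_le (Real.exp_pos _) hx8
  have hl8 : 8 ≤ Real.log x := by rw [Real.le_log_iff_exp_le hx0]; exact hx8
  have hx1 : 1 < x := lt_of_lt_of_le (by
    have := Real.add_one_le_exp (8 : ℝ)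
    linarith) hx8
  refine ⟨D, hD1, hD2, fun q hq hqx hqD => ?_⟩
  have hq0 : (0 : ℝ) < q := by exact_mod_cast hq
  have key : ∀ a : ℤ, (exceptional x q a).Finite ∧
      ((exceptional x q a).ncard : ℝ) ≤ x / (q * Real.log x ^ (A + 1)) := fun a => hD3 q hq hqx hqD a
  refine ⟨fun a => ⟨(key a).1, (key a).2.trans ?_⟩, ?_⟩
  · apply div_le_div_of_nonneg_left hx0.le (by positivity)
    exact mul_le_mul_of_nonneg_left (pow_le_pow_right₀ (by linarith) (Nat.le_succ _)) hq0.le
  · obtain ⟨f1, f2⟩ := key 0
    have hsub : few (1 / 20) x q ⊆ exceptional x q 0 := by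
      rintro n ⟨e1, e2, e3, e4, e5⟩
      have hn0 : 0 < n := by
        have : (0 : ℝ) < n := by linarith
        exact_mod_cast this
      refine ⟨hn0, e2, e3, ?_, ?_⟩
      · exact (Int.modEq_zero_iff_dvd).2 (by exact_mod_cast e4)
      · intro h1
        have h2 := Pool.Agent.R460.GS.one_le_sing n
        have h3 : (0 : ℝ) ≤ (n : ℝ) / Real.log n ^ 2 := by positivity
        unfold Pool.Agent.H560R3.GB.HL at h1
        nlinarith
    refine ⟨f1.subset hsub, ?_⟩
    have h4 : ((few (1 / 20) x q).ncard : ℝ) ≤ ((exceptional x q 0).ncard : ℝ) := by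
      exact_mod_cast Set.ncard_le_ncard hsub f1
    refine h4.trans (f2.trans ?_)
    apply div_le_div_of_nonneg_left hx0.le (by positivity)
    rw [mul_comm (8 : ℝ)]
    apply mul_le_mul_of_nonneg_left _ hq0.le
    calc (8 : ℝ) ≤ Real.log x := hl8
      _ = Real.log x ^ 1 := (pow_one _).symm
      _ ≤ Real.log x ^ (A + 1) := pow_le_pow_right₀ (by linarith) (by omega)

end Pool.Agent.Results.MP_92f640_nt.ModuliUpToSevenTenths
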