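import Pool.Agent.R498.MP.Gold

set_option autoImplicit false

/-!
# Many strings of consecutive primes complementary to almost primes, for every even number
-/

namespace Pool.Agent.Results.MP_92f640_nt.PrimeStrings

open Filter

/-- `n` has at most `r` prime factors, counted with multiplicity, all of them at least `w`. -/
def AlmostPrime (r : ℕ) (w : ℝ) (n : ℕ) : Prop :=
  n.primeFactorsList.length ≤ r ∧ ∀ q : ℕ, q.Prime → q ∣ n → w ≤ q

/-- The primes in the interval `[x, x + C]` are exactly the numbers `x + s`, `s ∈ H`. -/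
def PrimePattern (C : ℕ) (H : Finset ℕ) (x : ℕ) : Prop := ∀ y ≤ C, (x + y).Prime ↔ y ∈ H

/-- **For every large even `n` there are many strings of consecutive primes `p` for which `n - p` is almost
prime.** Let `q` be squarefree. For every `m` there are `K`, `B` and `δ > 0` such that for every `A` there is an
`r` such that, for every finite set `S` of at least `K` nonnegative integers, the following holds for all
large even `n`, all `N` with `n ^ (1 / A) ≤ N < n / 2` and all `c` for which `c (n - c)` is coprime to `q` (for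
instance `q = 1`). There are a subset `H` of `S` with at least `m` elements and at least `N / (log N) ^ B`
numbers `x` with `N < x ≤ x + max S ≤ 2 N` such that the primes in `[x, x + max S]` are exactly the numbers
`x + s`, `s ∈ H`, all these primes `p` are `≡ c` modulo `q`, and all `n - p` have at most `r` prime factors,
all of them at least `N ^ δ`. -/
theorem result (q : ℕ) (hq : Squarefree q) (m : ℕ) : ∃ (K B : ℕ) (δ : ℝ), 0 < δ ∧
    ∀ A : ℕ, ∃ r : ℕ, ∀ S : Finset ℕ, K ≤ S.card → ∀ᶠ n : ℕ in atTop, ∀ N : ℕ, n ≤ N ^ A →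
      Even n → 2 * N < n → ∀ c : ℕ, IsCoprime ((c : ℤ) * ((n : ℤ) - c)) (q : ℤ) →
      ∃ H ⊆ S, m ≤ H.card ∧ ∃ T : Finset ℕ, (N : ℝ) ≤ Real.log N ^ B * T.card ∧
        ∀ x ∈ T, N < x ∧ x + S.sup id ≤ 2 * N ∧ PrimePattern (S.sup id) H x ∧
          ∀ s ∈ H, x + s ≡ c [MOD q] ∧ AlmostPrime r ((N : ℝ) ^ δ) (n - (x + s)) :=
  Pool.Agent.R498.MP.gold_stringsM q hq m

end Pool.Agent.Results.MP_92f640_nt.PrimeStrings
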