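import Pool.Agent.R459.Fams3
import Pool.Agent.R459.Nbhd
import Pool.Agent.Results.MP_dd84fd_nt.QuadraticNeighbourhoods

/-!
# Goldbach representations of the multiples of large moduli `q`: no exceptions at all for all `q` near almost all members
of thin families and of power-sparse digit families

Definitions used:
* in `Pool.Agent.H560R3.GB`: `g m`: the number of ordered representations of `m` as a sum of two primes; `sing m`: the
  singular series `2 C₂ ∏_{p ∣ m, p > 2} (p - 1) / (p - 2)`, where `C₂ = ∏_{p > 2} (1 - 1 / (p - 1) ^ 2)`;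
* in `Pool.Agent.R459.Fams`: `Digits b k U κ c η P`: almost all the integers `c + κ v` have the property `P`, up to a
  proportion of at most `1 / k ^ U`, if `v` runs through the rearrangements of `k` given digits in base `b` (none of
  them at more than `(1 - η) k` places), or through the palindromes with `k` digits, or is random with independent
  pairs of mirror digits; `Quadratics b k U κ β c P`: for arbitrary sets `D i` of at least two digits, almost all the
  integers `c + κ m ^ 2 + β m` have the property `P`, up to a proportion of `1 / k ^ U`, if `m` runs through the integers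
  below `b ^ k` whose `i`-th digit lies in `D i` for all `i < k`.
-/

set_option autoImplicit false

namespace Pool.Agent.Results.MP_92f640_nt.StructuredLargeModuli

open Finset Pool.Agent.H560R3.GB Pool.Agent.R459.Fams

/-- `g n ≥ 1.3 n / log ^ 2 n`, and `g n` is `sing n * n / log ^ 2 n` up to a relative error of at most `ε`. -/
def Rep (ε : ℝ) (n : ℕ) : Prop :=
  13 / 10 * ((n : ℝ) / Real.log n ^ 2) ≤ g n ∧
    |(g n : ℝ) - sing n * ((n : ℝ) / Real.log n ^ 2)| ≤ ε * (sing n * ((n : ℝ) / Real.log n ^ 2))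

/-- For ALL the positive integers `q` at a distance of at most `Q` from `v` and ALL the even multiples `n` of `q` with
`0 < n ≤ J q`: `Rep ε n`. (For `x ≤ J q` these are all the even multiples of `q` up to `x`.) -/
def Good (ε J Q : ℝ) (v : ℤ) : Prop :=
  ∀ q : ℕ, 0 < q → |((q : ℤ) : ℝ) - v| ≤ Q → ∀ n : ℕ, 0 < n → Even n → q ∣ n → (n : ℝ) ≤ J * q → Rep ε n

/-- The additive energy of order `h` of a finite family of integers `v i`: the number of solutions of
`v (a 1) + ... + v (a h) = v (b 1) + ... + v (b h)`. -/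
noncomputable def energy (h : ℕ) {ι : Type} [Fintype ι] (v : ι → ℤ) : ℕ :=
  Nat.card {q : (Fin h → ι) × (Fin h → ι) // ∑ j, v (q.1 j) = ∑ j, v (q.2 j)}

lemma rep_of (ε : ℝ) (m : ℕ) (hm : 3 ≤ m) (hw : Pool.Agent.W93.PG.WinP (min ε (1 / 200)) 1 m) : Rep ε m := by
  obtain ⟨h1, h2⟩ := MP_dd84fd_nt.QuadraticNeighbourhoods.holds_of 1 ε m hm hw
  refine ⟨h1, ?_⟩
  have hmr : (3 : ℝ) ≤ m := by exact_mod_cast hm
  have hlog : 1 ≤ Real.log m := by
    rw [Real.le_log_iff_exp_le (by linarith)]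
    linarith [Real.exp_one_lt_d9]
  have h3 := (h2 0 m (by omega) le_rfl (by
    rw [Nat.cast_zero, sub_zero]
    exact div_le_self (by linarith) (one_le_pow₀ hlog))).2
  rw [MP_dd84fd_nt.QuadraticNeighbourhoods.G_full, Nat.cast_zero, sub_zero] at h3
  exact h3

lemma common (J : ℕ) (P : ℕ → ℕ → Prop) (h : ∀ j, ∃ k₀ : ℕ, ∀ k, k₀ ≤ k → P j k) :
    ∃ k₀ : ℕ, ∀ k, k₀ ≤ k → ∀ j ∈ Icc 1 J, P j k := by
  choose f hf using h
  refine ⟨∑ j ∈ Icc 1 J, f j, fun k hk j hj => hf j k (le_trans ?_ hk)⟩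
  exact single_le_sum (f := f) (fun _ _ => Nat.zero_le _) hj

lemma good_of (ε : ℝ) (J W k : ℕ) (hk : J ≤ k) (v : ℤ)
    (h : ∀ j ∈ Icc 1 J, ∀ m : ℕ, 0 < m → Even m → |(m : ℤ) - (j : ℤ) * v| ≤ (k : ℤ) ^ (W + 1) → Rep ε m) :
    Good ε J ((k : ℝ) ^ W) v := by
  intro q hq hqv n hn hev hqn hnJ
  obtain ⟨j, rfl⟩ := hqn
  have hj1 : 1 ≤ j := by
    rcases Nat.eq_zero_or_pos j with rfl | h0
    · simp at hn
    · exact h0
  have hqr : (0 : ℝ) < q := by exact_mod_cast hq
  have hjJ : j ≤ J := by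
    have h1 : ((q : ℝ) * j) ≤ J * q := by exact_mod_cast hnJ
    have h2 : (j : ℝ) ≤ J := by
      by_contra hcon
      push Not at hcon
      nlinarith
    exact_mod_cast h2
  refine h j (mem_Icc.2 ⟨hj1, hjJ⟩) (q * j) hn hev ?_
  have h3 : |(q : ℤ) - v| ≤ (k : ℤ) ^ W := by
    have h4 : ((|(q : ℤ) - v| : ℤ) : ℝ) ≤ (((k : ℤ) ^ W : ℤ) : ℝ) := by
      push_cast
      push_cast at hqv
      exact hqv
    exact_mod_cast h4
  have e : ((q * j : ℕ) : ℤ) - (j : ℤ) * v = j * ((q : ℤ) - v) := by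
    push_cast
    ring
  rw [e, abs_mul, Nat.abs_cast, pow_succ, mul_comm]
  exact mul_le_mul h3 (by exact_mod_cast hjJ.trans hk) (Nat.cast_nonneg _) (by positivity)

lemma abs_scale (j B : ℕ) (M c : ℤ) (J : ℕ) (hj : j ≤ J) (hM : 0 ≤ M) (hc : |c| ≤ B * M) :
    |(j : ℤ) * c| ≤ ((J * B : ℕ) : ℤ) * M := by
  rw [abs_mul, Nat.abs_cast]
  have h1 : (j : ℤ) ≤ J := by exact_mod_cast hj
  have h2 : (0 : ℤ) ≤ B * M := by positivity
  calc (j : ℤ) * |c| ≤ j * (B * M) := mul_le_mul_of_nonneg_left hc (Nat.cast_nonneg _)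
    _ ≤ J * (B * M) := mul_le_mul_of_nonneg_right h1 h2
    _ = ((J * B : ℕ) : ℤ) * M := by push_cast; ring

theorem digits (b B J W U : ℕ) (hb : 2 ≤ b) (κ : ℤ) (hκ : κ ≠ 0) (η ε : ℝ) (hη : 0 < η) (hε : 0 < ε) :
    ∃ k₀ : ℕ, ∀ k : ℕ, k₀ ≤ k → ∀ c : ℤ, |c| ≤ B * (b : ℤ) ^ k → Digits b k U κ c η (Good ε J ((k : ℝ) ^ W)) := by
  have hε' : 0 < min ε (1 / 200) := lt_min hε (by norm_num)
  obtain ⟨k1, h1⟩ := common J (fun j k => 1 ≤ j → ∀ c : ℤ, |c| ≤ ((J * B : ℕ) : ℤ) * (b : ℤ) ^ k →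
    Digits b k (U + 1) (j * κ) c η
      (fun v => ∀ m : ℕ, 0 < m → Even m → |(m : ℤ) - v| ≤ (k : ℤ) ^ (W + 1) → Rep ε m)) (by
    intro j
    rcases Nat.eq_zero_or_pos j with rfl | hj
    · exact ⟨0, fun k _ h => absurd h (by norm_num)⟩
    · obtain ⟨k₀, h⟩ := digits_gold b (J * B) 1 (W + 1) (U + 1) 3 hb (j * κ)
        (mul_ne_zero (by exact_mod_cast hj.ne') hκ) η _ hη hε' (Rep ε) (fun m hm _ hw => rep_of ε m hm hw)
      exact ⟨k₀, fun k hk _ => h k hk⟩)
  refine ⟨k1 + J + 1, fun k hk c hc => ?_⟩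
  have h2 : Digits b k U κ c η (fun v => ∀ j ∈ Icc 1 J, ∀ m : ℕ, 0 < m → Even m →
      |(m : ℤ) - (j : ℤ) * v| ≤ (k : ℤ) ^ (W + 1) → Rep ε m) := by
    apply Digits.inter (Icc 1 J) _ (by omega) (by rw [Nat.card_Icc]; omega)
    intro j hj
    exact Digits.scale (P := fun v => ∀ m : ℕ, 0 < m → Even m → |(m : ℤ) - v| ≤ (k : ℤ) ^ (W + 1) → Rep ε m) (j : ℤ)
      (h1 k (by omega) j hj (mem_Icc.1 hj).1 (j * c) (abs_scale j B _ c J (mem_Icc.1 hj).2 (by positivity) hc))
  exact h2.mono fun v hv => good_of ε J W k (by omega) v hv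

theorem quadratics (b B J W U : ℕ) (hb : 2 ≤ b) (κ β : ℤ) (hκ : κ ≠ 0) (ε : ℝ) (hε : 0 < ε) :
    ∃ k₀ : ℕ, ∀ k : ℕ, k₀ ≤ k → ∀ c : ℤ, |c| ≤ B * (b : ℤ) ^ (2 * k) →
      Quadratics b k U κ β c (Good ε J ((k : ℝ) ^ W)) := by
  have hε' : 0 < min ε (1 / 200) := lt_min hε (by norm_num)
  obtain ⟨k1, h1⟩ := common J (fun j k => 1 ≤ j → ∀ c : ℤ, |c| ≤ ((J * B : ℕ) : ℤ) * (b : ℤ) ^ (2 * k) →
    Quadratics b k (U + 1) (j * κ) (j * β) c
      (fun v => ∀ m : ℕ, 0 < m → Even m → |(m : ℤ) - v| ≤ (k : ℤ) ^ (W + 1) → Rep ε m)) (by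
    intro j
    rcases Nat.eq_zero_or_pos j with rfl | hj
    · exact ⟨0, fun k _ h => absurd h (by norm_num)⟩
    · obtain ⟨k₀, h⟩ := quad_gold b (J * B) 1 (W + 1) (U + 1) 3 hb (j * κ) (j * β)
        (mul_ne_zero (by exact_mod_cast hj.ne') hκ) _ hε' (Rep ε) (fun m hm _ hw => rep_of ε m hm hw)
      exact ⟨k₀, fun k hk _ => h k hk⟩)
  refine ⟨k1 + J + 1, fun k hk c hc => ?_⟩
  have h2 : Quadratics b k U κ β c (fun v => ∀ j ∈ Icc 1 J, ∀ m : ℕ, 0 < m → Even m →
      |(m : ℤ) - (j : ℤ) * v| ≤ (k : ℤ) ^ (W + 1) → Rep ε m) := by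
    apply Quadratics.inter (Icc 1 J) _ (by omega) (by rw [Nat.card_Icc]; omega)
    intro j hj
    exact Quadratics.scale (P := fun v => ∀ m : ℕ, 0 < m → Even m → |(m : ℤ) - v| ≤ (k : ℤ) ^ (W + 1) → Rep ε m) (j : ℤ)
      (h1 k (by omega) j hj (mem_Icc.1 hj).1 (j * c) (abs_scale j B _ c J (mem_Icc.1 hj).2 (by positivity) hc))
  exact h2.mono fun v hv => good_of ε J W k (by omega) v hv

lemma energy_scale (h : ℕ) {ι : Type} [Fintype ι] (v : ι → ℤ) (j : ℤ) (hj : j ≠ 0) :
    Pool.Agent.TH935.GF.En h (fun i => j * v i) = energy h v := by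
  unfold Pool.Agent.TH935.GF.En energy
  apply Nat.card_congr
  apply Equiv.subtypeEquivRight
  intro q
  rw [← mul_sum, ← mul_sum]
  exact ⟨fun h => mul_left_cancel₀ hj h, fun h => by rw [h]⟩

open Classical in
/-- Let `ε > 0` be fixed. The integer `v` is good for `J` and `Q` if ALL the positive integers `q` at a distance of at
most `Q` from `v` have no exceptional even multiples up to `J q`: every even multiple `n ≤ J q` of `q` satisfies
`g n ≥ 1.3 n / log ^ 2 n`, and even the formula of Hardy and Littlewood with a relative error of at most `ε`.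

* Let `b ≥ 2`, `B`, `J`, `W`, `U`, `κ ≠ 0`, `β` and `η > 0` be fixed and let `k` be large. If `|c| ≤ B b ^ k` then almost
  all the members `c + κ v` of the digit families (rearrangements of digits, palindromes, random integers with
  independent pairs of mirror digits) are good for `J` and `k ^ W`; if `|c| ≤ B b ^ (2 k)`, the same holds for almost
  all values `c + κ m ^ 2 + β m` at the integers `m` with restricted digits. The proportion of the exceptions is at most
  `1 / k ^ U`.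
* Let `h ≥ 1`, `B`, `C`, `T`, `W` and `U` be fixed and let `N` be large. Let `v i`, `i ∈ ι`, be a finite family of
  integers `≤ B N` whose additive energy of order `h` is at most `log ^ C N` times `(#ι) ^ (2 h) / N`. Then all the
  members of the family, with at most `#ι / log ^ U N` exceptions, are good for `log ^ T N` and `log ^ W N`. -/
theorem result (ε : ℝ) (hε : 0 < ε) :
    (∀ (b B J W U : ℕ) (κ β : ℤ) (η : ℝ), 2 ≤ b → κ ≠ 0 → 0 < η → ∃ k₀ : ℕ, ∀ k : ℕ, k₀ ≤ k →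
      (∀ c : ℤ, |c| ≤ B * (b : ℤ) ^ k → Digits b k U κ c η (Good ε J ((k : ℝ) ^ W))) ∧
      (∀ c : ℤ, |c| ≤ B * (b : ℤ) ^ (2 * k) → Quadratics b k U κ β c (Good ε J ((k : ℝ) ^ W)))) ∧
    (∀ h B C T W U : ℕ, 1 ≤ h → ∃ N₀ : ℕ, ∀ N : ℕ, N₀ ≤ N → ∀ (ι : Type) [Fintype ι] (v : ι → ℤ),
      (∀ i, v i ≤ B * N) →
      (energy h v : ℝ) * N ≤ Real.log N ^ C * (Fintype.card ι : ℝ) ^ (2 * h) →
      ((univ.filter (fun i => ¬ Good ε (Real.log N ^ T) (Real.log N ^ W) (v i))).card : ℝ) ≤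
        Fintype.card ι / Real.log N ^ U) := by
  refine ⟨fun b B J W U κ β η hb hκ hη => ?_, fun h B C T W U hh => ?_⟩
  · obtain ⟨k1, h1⟩ := digits b B J W U hb κ hκ η ε hη hε
    obtain ⟨k2, h2⟩ := quadratics b B J W U hb κ β hκ ε hε
    exact ⟨k1 + k2, fun k hk => ⟨h1 k (by omega), h2 k (by omega)⟩⟩
  · obtain ⟨N1, h1⟩ := Pool.Agent.R459.near_even h 1 B (C + T) (W + T) (U + T) 3 hh (min ε (1 / 200))
      (lt_min hε (by norm_num)) (Rep ε) (fun m hm _ hw => rep_of ε m hm hw)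
    obtain ⟨N2, h2⟩ := Pool.Agent.H373R2.T7.ev_L' 1
    refine ⟨N1 + N2 + 1, fun N hN ι _ v hv hE => ?_⟩
    have hL := h2 N (by omega)
    have hN0 : (0 : ℝ) < N := by exact_mod_cast (by omega : 0 < N)
    obtain ⟨L, hLd⟩ : ∃ L, L = Real.log (N : ℝ) := ⟨_, rfl⟩
    rw [← hLd] at hL hE ⊢
    have hL0 : 0 < L := by linarith
    obtain ⟨J, hJ⟩ : ∃ J : ℕ, J = ⌊L ^ T⌋₊ := ⟨_, rfl⟩
    have hJL : (J : ℝ) ≤ L ^ T := by rw [hJ]; exact Nat.floor_le (by positivity)
    obtain ⟨S, hS⟩ : ∃ S : ℕ → Finset ι, S = fun j : ℕ => univ.filter (fun i => ∃ m : ℕ, 0 < m ∧ Even m ∧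
      |(((m : ℤ) - (j : ℤ) * v i : ℤ) : ℝ)| ≤ L ^ (W + T) ∧ ¬ Rep ε m) := ⟨_, rfl⟩
    have hcard : ∀ j ∈ Icc 1 J, ((S j).card : ℝ) ≤ Fintype.card ι / L ^ (U + T) := by
      intro j hj
      rw [mem_Icc] at hj
      have hjr : (1 : ℝ) ≤ j := by exact_mod_cast hj.1
      have hjJ : (j : ℝ) ≤ L ^ T := le_trans (by exact_mod_cast hj.2) hJL
      have hlog : L ≤ Real.log ((j * N : ℕ) : ℝ) := by
        rw [hLd]
        apply Real.log_le_log hN0
        push_cast
        nlinarith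
      have key := h1 (j * N) (by nlinarith [hj.1]) ι (fun i => (j : ℤ) * v i) (by
        intro i
        have h3 := hv i
        push_cast
        have h4 : (0 : ℤ) ≤ j := Nat.cast_nonneg _
        nlinarith) (by
        rw [energy_scale h v j (by exact_mod_cast (by omega : j ≠ 0))]
        push_cast
        calc (energy h v : ℝ) * (j * N) = j * ((energy h v : ℝ) * N) := by ring
          _ ≤ L ^ T * (L ^ C * (Fintype.card ι : ℝ) ^ (2 * h)) := mul_le_mul hjJ hE (by positivity) (by positivity)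
          _ = L ^ (C + T) * (Fintype.card ι : ℝ) ^ (2 * h) := by ring
          _ ≤ Real.log ((j : ℝ) * N) ^ (C + T) * (Fintype.card ι : ℝ) ^ (2 * h) := by
              apply mul_le_mul_of_nonneg_right _ (by positivity)
              push_cast at hlog
              exact pow_le_pow_left₀ hL0.le hlog _) (S j) (by
        intro i hi
        rw [hS] at hi
        simp only [mem_filter] at hi
        obtain ⟨_, m, hm1, hm2, hm3, hm4⟩ := hi
        exact ⟨m, hm1, hm2, hm3.trans (pow_le_pow_left₀ hL0.le hlog _), hm4⟩)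
      refine key.trans ?_
      exact div_le_div_of_nonneg_left (Nat.cast_nonneg _) (by positivity) (pow_le_pow_left₀ hL0.le hlog _)
    have hsub : univ.filter (fun i => ¬ Good ε (L ^ T) (L ^ W) (v i)) ⊆ (Icc 1 J).biUnion S := by
      intro i hi
      rw [mem_filter] at hi
      have hi2 := hi.2
      unfold Good at hi2
      push Not at hi2
      obtain ⟨q, hq, hqv, n, hn, hev, hqn, hnJ, hrep⟩ := hi2
      obtain ⟨j, rfl⟩ := hqn
      have hj1 : 1 ≤ j := by
        rcases Nat.eq_zero_or_pos j with rfl | h0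
        · simp at hn
        · exact h0
      have hqr : (0 : ℝ) < q := by exact_mod_cast hq
      have hjL : (j : ℝ) ≤ L ^ T := by
        by_contra hcon
        push Not at hcon
        push_cast at hnJ
        nlinarith
      have hjJ : j ≤ J := by
        rw [hJ]
        exact Nat.le_floor hjL
      rw [mem_biUnion]
      refine ⟨j, mem_Icc.2 ⟨hj1, hjJ⟩, ?_⟩
      rw [hS]
      simp only [mem_filter, mem_univ, true_and]
      refine ⟨q * j, hn, hev, ?_, hrep⟩
      have e : (((((q * j : ℕ) : ℤ) - (j : ℤ) * v i : ℤ)) : ℝ) = j * (((q : ℤ) : ℝ) - v i) := by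
        push_cast
        ring
      rw [e, abs_mul, Nat.abs_cast, pow_add, mul_comm]
      exact mul_le_mul hqv hjL (Nat.cast_nonneg _) (by positivity)
    have h5 := (card_le_card hsub).trans card_biUnion_le
    have h6 : ((univ.filter (fun i => ¬ Good ε (L ^ T) (L ^ W) (v i))).card : ℝ) ≤ ∑ j ∈ Icc 1 J, ((S j).card : ℝ) := by
      exact_mod_cast h5
    refine h6.trans ((sum_le_card_nsmul _ _ _ hcard).trans ?_)
    rw [Nat.card_Icc, Nat.add_sub_cancel, nsmul_eq_mul]
    calc (J : ℝ) * (Fintype.card ι / L ^ (U + T)) ≤ L ^ T * (Fintype.card ι / L ^ (U + T)) :=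
          mul_le_mul_of_nonneg_right hJL (by positivity)
      _ = Fintype.card ι / L ^ U := by
          rw [pow_add]
          field_simp

end Pool.Agent.Results.MP_92f640_nt.StructuredLargeModuli
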